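import Mathlib

/-!
# Adding an edge can decrease the sum-decomposition value of a cut function

A monotonic sum-decomposition of a set function `φ` with `φ(∅) = 0` is a representation
`φ = φ₁ + φ₂` with `φ₁` increasing and submodular, `φ₂` decreasing and submodular and
`φ₁(∅) = φ₂(∅) = 0`; `‖φ‖₊` is the least possible value of `φ₁(V)`.  It was asked whether
`‖d_(G,w)‖₊` is a monotone function of the edge weights `w` for the weighted cut functions
`d_(G,w)`.  It is not: there are a graph on seven vertices and weights `w' ≤ w`, which differ on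
one edge only (weight `0` instead of `1`), with `‖d_(G,w')‖₊ = 73/4` and `‖d_(G,w)‖₊ = 18`.

The graph: three vertices `0, 1, 2`, pairwise joined with weight 1 and joined to `3, 4, 5, 6` with
weights `2, 1, 1, 2`, and the edges `36`, `45`, `46`, `56` with weights `4, 2, 1, 1`; the weight
of the edge `56` is changed to `0` in `w'`.  The decompositions are explicit tables; the lower
bound `73/4` is a combination of `90` of the inequalities for `φ₁` and `φ₂` (dual solution of
the linear program), and the lower bound `18` is the maximum cut.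
-/

set_option autoImplicit false
set_option maxRecDepth 100000

open Finset

namespace Pool.Agent.Results.MP_37da45_co.EdgeAddition

section Defs

variable {V : Type*} [Fintype V] [DecidableEq V]

/-- `φ = φ₁ + φ₂` is a monotonic sum-decomposition: `φ₁` is increasing and submodular, `φ₂` is
decreasing and submodular, and both vanish at the empty set. -/
structure IsMonoDecomp (φ φ₁ φ₂ : Finset V → ℝ) : Prop where
  sum_eq : ∀ X, φ X = φ₁ X + φ₂ X
  incr : ∀ X Y, X ⊆ Y → φ₁ X ≤ φ₁ Y
  decr : ∀ X Y, X ⊆ Y → φ₂ Y ≤ φ₂ X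
  submod₁ : ∀ X Y, φ₁ (X ∩ Y) + φ₁ (X ∪ Y) ≤ φ₁ X + φ₁ Y
  submod₂ : ∀ X Y, φ₂ (X ∩ Y) + φ₂ (X ∪ Y) ≤ φ₂ X + φ₂ Y
  zero₁ : φ₁ ∅ = 0
  zero₂ : φ₂ ∅ = 0

/-- The set of the values `φ₁(V)` of all monotonic sum-decompositions `φ = φ₁ + φ₂`. -/
def values (φ : Finset V → ℝ) : Set ℝ :=
  {r | ∃ φ₁ φ₂ : Finset V → ℝ, IsMonoDecomp φ φ₁ φ₂ ∧ r = φ₁ univ}

/-- `‖φ‖₊`, the least value `φ₁(V)` of a monotonic sum-decomposition. -/
noncomputable def plusNorm (φ : Finset V → ℝ) : ℝ := sInf (values φ)

open Classical in
/-- The weighted cut function `d_(G,w)`: the total weight of the edges of `G` with exactly one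
endpoint in `X`. -/
noncomputable def cutFn (G : SimpleGraph V) (w : Sym2 V → ℝ) (X : Finset V) : ℝ :=
  ∑ e : Sym2 V, if e ∈ G.edgeSet ∧ (∃ a ∈ X, ∃ b, b ∉ X ∧ e = s(a, b)) then w e else 0

open Classical in
theorem cutFn_eq (G : SimpleGraph V) (w : Sym2 V → ℝ) (X : Finset V) :
    cutFn G w X = ∑ p : V × V, if (G.Adj p.1 p.2 ∧ p.1 ∈ X ∧ p.2 ∉ X) then w s(p.1, p.2) else 0 := by
  unfold cutFn
  rw [← Finset.sum_filter, ← Finset.sum_filter]
  symm
  apply Finset.sum_bij (fun (p : V × V) _ => s(p.1, p.2))
  · intro p hp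
    simp only [mem_filter, mem_univ, true_and] at hp ⊢
    exact ⟨hp.1, p.1, hp.2.1, p.2, hp.2.2, rfl⟩
  · intro p hp q hq h
    simp only [mem_filter, mem_univ, true_and] at hp hq
    rw [Sym2.eq_iff] at h
    rcases h with ⟨h1, h2⟩ | ⟨h1, h2⟩
    · exact Prod.ext h1 h2
    · exfalso
      apply hq.2.2
      rw [← h1]
      exact hp.2.1
  · intro e he
    simp only [mem_filter, mem_univ, true_and] at he
    obtain ⟨h1, a, ha, b, hb, rfl⟩ := he
    refine ⟨(a, b), ?_, rfl⟩
    simp only [mem_filter, mem_univ, true_and]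
    exact ⟨h1, ha, hb⟩
  · intro p _
    rfl

end Defs

/-- The table of the weights `w`. -/
def tab : List (List ℕ) :=
  [[0, 1, 1, 2, 1, 1, 2],
   [1, 0, 1, 2, 1, 1, 2],
   [1, 1, 0, 2, 1, 1, 2],
   [2, 2, 2, 0, 0, 0, 4],
   [1, 1, 1, 0, 0, 2, 1],
   [1, 1, 1, 0, 2, 0, 1],
   [2, 2, 2, 4, 1, 1, 0]]

/-- The weights `w`, as natural numbers. -/
def wn (a b : Fin 7) : ℕ := (tab.getD a []).getD b 0

theorem wn_symm (a b : Fin 7) : wn a b = wn b a := by revert a b; decide +kernel

/-- The graph: two vertices are adjacent if their weight is not `0`. -/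
def G : SimpleGraph (Fin 7) where
  Adj a b := wn a b ≠ 0
  symm := ⟨fun a b h => by rw [wn_symm]; exact h⟩
  loopless := ⟨fun a => by revert a; decide +kernel⟩

/-- The weights `w'`: the weight of the edge `56` is `0` instead of `1`. -/
def wn' (a b : Fin 7) : ℕ := if (a = 5 ∧ b = 6) ∨ (a = 6 ∧ b = 5) then 0 else wn a b

theorem wn'_symm (a b : Fin 7) : wn' a b = wn' b a := by revert a b; decide +kernel

/-- The weight function `w`. -/
noncomputable def w : Sym2 (Fin 7) → ℝ :=
  Sym2.lift ⟨fun a b => ((wn a b : ℕ) : ℝ), fun a b => congrArg Nat.cast (wn_symm a b)⟩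

/-- The weight function `w'`. -/
noncomputable def w' : Sym2 (Fin 7) → ℝ :=
  Sym2.lift ⟨fun a b => ((wn' a b : ℕ) : ℝ), fun a b => congrArg Nat.cast (wn'_symm a b)⟩

/-- The `m`-th byte of `N`. -/
def byte (N m : ℕ) : ℕ := (N >>> (8 * m)) % 256

/-- The set with the characteristic vector `m` (binary digits). -/
def S (m : ℕ) : Finset (Fin 7) := univ.filter fun i => m.testBit i

/-- The number whose binary digits are the characteristic vector of `X`. -/
def mask (X : Finset (Fin 7)) : ℕ := ∑ i ∈ X, 2 ^ (i : ℕ)

theorem mask_lt (X : Finset (Fin 7)) : mask X < 128 := by revert X; decide +kernel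

theorem S_mask (X : Finset (Fin 7)) : S (mask X) = X := by revert X; decide +kernel

theorem mask_S : ∀ m < 128, mask (S m) = m := by decide +kernel

theorem S_and (a b : ℕ) : S (a &&& b) = S a ∩ S b := by
  ext i
  simp [S, Nat.testBit_and]

theorem S_or (a b : ℕ) : S (a ||| b) = S a ∪ S b := by
  ext i
  simp [S, Nat.testBit_or]

theorem S_zero : S 0 = ∅ := by
  ext i
  simp [S]

theorem S_univ : S 127 = univ := by decide +kernel

theorem mask_inter (X Y : Finset (Fin 7)) : mask (X ∩ Y) = mask X &&& mask Y := by
  have h : S (mask X &&& mask Y) = X ∩ Y := by rw [S_and, S_mask, S_mask]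
  rw [← h, mask_S]
  exact lt_of_le_of_lt Nat.and_le_left (mask_lt X)

theorem mask_union (X Y : Finset (Fin 7)) : mask (X ∪ Y) = mask X ||| mask Y := by
  have h : S (mask X ||| mask Y) = X ∪ Y := by rw [S_or, S_mask, S_mask]
  rw [← h, mask_S]
  exact Nat.or_lt_two_pow (n := 7) (mask_lt X) (mask_lt Y)

/-- Table of the cut function for the weights `w`. -/
def D1 : ℕ := 22030804261989583955865666793316575913558933772655449337382278900530079771125356915434735756653725345322167189331684068309275457310815813992163018285997529559170065463249916969231933782814391993432921712808768894533218989364011427762446095354613528950910915402939842057012090295040178704639124891815643136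

/-- Table of the cut function for the weights `w'`. -/
def D0 : ℕ := 22030804261989583955865666793316575913558933772655449337382278900530079771119268609190419251025690131641922081271853142751955078443603845215590269451933306475519561899216009212563354446747211314193033163616161779272653156912869541396123092457732530982364718238454780913658057614439580942704580425381578752

/-- Four times the function `φ₁` for the weights `w`. -/
def T1 : ℕ := 50758394396112449159415675975219521886163581979873922435796834047557093257625308484443251042527838544901058560479561778705260721186824783649074386934050087321579988979077846965389919862216592912509018710996561521294794295403250956201435050306176361497315607903198430682925553201926985224819314957609712230400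

/-- Four times the function `φ₁` for the weights `w'`. -/
def T0 : ℕ := 51463372096058455397740893694828528309870758227523385703424835672138819225978117112619835222029510909006544111491666517033964276695785649980473372021144442360341899136587622114014282834089313438562650161695618433314590940205450664459613752940442606169177236352188311465280586982438487226879065762744871428096

theorem sum_byte1 : ∀ m < 128, (∑ a : Fin 7, ∑ b : Fin 7,
    if (wn a b ≠ 0 ∧ m.testBit a ∧ ¬ m.testBit b) then wn a b else 0) = byte D1 m := by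
  decide +kernel

theorem sum_byte0 : ∀ m < 128, (∑ a : Fin 7, ∑ b : Fin 7,
    if (wn a b ≠ 0 ∧ m.testBit a ∧ ¬ m.testBit b) then wn' a b else 0) = byte D0 m := by
  decide +kernel

theorem cut1 (X : Finset (Fin 7)) : cutFn G w X = (byte D1 (mask X) : ℝ) := by
  rw [← sum_byte1 _ (mask_lt X), cutFn_eq, Fintype.sum_prod_type]
  push_cast
  refine Finset.sum_congr rfl fun a _ => Finset.sum_congr rfl fun b _ => ?_
  have ha : a ∈ X ↔ (mask X).testBit a = true := by
    conv_lhs => rw [← S_mask X]
    simp [S]
  have hb : b ∈ X ↔ (mask X).testBit b = true := by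
    conv_lhs => rw [← S_mask X]
    simp [S]
  by_cases h : G.Adj a b ∧ a ∈ X ∧ b ∉ X
  · rw [if_pos h, if_pos ⟨h.1, ha.1 h.2.1, fun h' => h.2.2 (hb.2 h')⟩]
    rfl
  · rw [if_neg h, if_neg (fun h' => h ⟨h'.1, ha.2 h'.2.1, fun h2 => h'.2.2 (hb.1 h2)⟩)]

theorem cut0 (X : Finset (Fin 7)) : cutFn G w' X = (byte D0 (mask X) : ℝ) := by
  rw [← sum_byte0 _ (mask_lt X), cutFn_eq, Fintype.sum_prod_type]
  push_cast
  refine Finset.sum_congr rfl fun a _ => Finset.sum_congr rfl fun b _ => ?_
  have ha : a ∈ X ↔ (mask X).testBit a = true := by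
    conv_lhs => rw [← S_mask X]
    simp [S]
  have hb : b ∈ X ↔ (mask X).testBit b = true := by
    conv_lhs => rw [← S_mask X]
    simp [S]
  by_cases h : G.Adj a b ∧ a ∈ X ∧ b ∉ X
  · rw [if_pos h, if_pos ⟨h.1, ha.1 h.2.1, fun h' => h.2.2 (hb.2 h')⟩]
    rfl
  · rw [if_neg h, if_neg (fun h' => h ⟨h'.1, ha.2 h'.2.1, fun h2 => h'.2.2 (hb.1 h2)⟩)]

/-- The kernel check for the tables of `φ₁` (times 4) and of the cut function. -/
def Check (T D : ℕ) : Prop :=
  ∀ a < 128, ∀ b < 128,
    byte T (a &&& b) + byte T (a ||| b) ≤ byte T a + byte T b ∧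
    4 * byte D (a &&& b) + 4 * byte D (a ||| b) + byte T a + byte T b ≤
      4 * byte D a + 4 * byte D b + byte T (a &&& b) + byte T (a ||| b) ∧
    (a &&& b = a → byte T a ≤ byte T b ∧ 4 * byte D b + byte T a ≤ 4 * byte D a + byte T b)

instance (T D : ℕ) : Decidable (Check T D) := by unfold Check; infer_instance

theorem check1 : Check T1 D1 := by decide +kernel

theorem check0 : Check T0 D0 := by decide +kernel

theorem decomp_of_check {T D : ℕ} {d : Finset (Fin 7) → ℝ} (hc : Check T D)
    (hd : ∀ X, d X = (byte D (mask X) : ℝ)) (h0 : byte T 0 = 0) (h1 : byte D 0 = 0) :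
    IsMonoDecomp d (fun X => (byte T (mask X) : ℝ) / 4)
      (fun X => (byte D (mask X) : ℝ) - (byte T (mask X) : ℝ) / 4) := by
  have key : ∀ X Y : Finset (Fin 7), X ⊆ Y → mask X &&& mask Y = mask X := by
    intro X Y h
    rw [← mask_inter, Finset.inter_eq_left.2 h]
  have hm0 : mask ∅ = 0 := by simp [mask]
  constructor
  · intro X
    rw [hd X]
    ring
  · intro X Y h
    have := (hc _ (mask_lt X) _ (mask_lt Y)).2.2 (key X Y h)
    have h3 : (byte T (mask X) : ℝ) ≤ (byte T (mask Y) : ℝ) := by exact_mod_cast this.1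
    show (byte T (mask X) : ℝ) / 4 ≤ (byte T (mask Y) : ℝ) / 4
    linarith
  · intro X Y h
    have := (hc _ (mask_lt X) _ (mask_lt Y)).2.2 (key X Y h)
    have h3 : 4 * (byte D (mask Y) : ℝ) + (byte T (mask X) : ℝ) ≤
        4 * (byte D (mask X) : ℝ) + (byte T (mask Y) : ℝ) := by exact_mod_cast this.2
    show (byte D (mask Y) : ℝ) - (byte T (mask Y) : ℝ) / 4 ≤
      (byte D (mask X) : ℝ) - (byte T (mask X) : ℝ) / 4
    linarith
  · intro X Y
    have := (hc _ (mask_lt X) _ (mask_lt Y)).1
    have h3 : (byte T (mask X &&& mask Y) : ℝ) + (byte T (mask X ||| mask Y) : ℝ) ≤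
        (byte T (mask X) : ℝ) + (byte T (mask Y) : ℝ) := by exact_mod_cast this
    simp only [mask_inter, mask_union]
    linarith
  · intro X Y
    have := (hc _ (mask_lt X) _ (mask_lt Y)).2.1
    have h3 : 4 * (byte D (mask X &&& mask Y) : ℝ) + 4 * (byte D (mask X ||| mask Y) : ℝ) +
        (byte T (mask X) : ℝ) + (byte T (mask Y) : ℝ) ≤
        4 * (byte D (mask X) : ℝ) + 4 * (byte D (mask Y) : ℝ) +
        (byte T (mask X &&& mask Y) : ℝ) + (byte T (mask X ||| mask Y) : ℝ) := by
      exact_mod_cast this
    simp only [mask_inter, mask_union]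
    linarith
  · simp [hm0, h0]
  · simp [hm0, h0, h1]

theorem mask_univ : mask (univ : Finset (Fin 7)) = 127 := by decide +kernel

theorem mem1 : (18 : ℝ) ∈ values (cutFn G w) := by
  refine ⟨_, _, decomp_of_check check1 cut1 (by decide +kernel) (by decide +kernel), ?_⟩
  have h : byte T1 127 = 72 := by decide +kernel
  simp only [mask_univ, h]
  norm_num

theorem mem0 : (73 / 4 : ℝ) ∈ values (cutFn G w') := by
  refine ⟨_, _, decomp_of_check check0 cut0 (by decide +kernel) (by decide +kernel), ?_⟩
  have h : byte T0 127 = 73 := by decide +kernel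
  simp only [mask_univ, h]
  norm_num

theorem lower1 {r : ℝ} (hr : r ∈ values (cutFn G w)) : 18 ≤ r := by
  obtain ⟨φ₁, φ₂, h, rfl⟩ := hr
  have h1 : φ₁ (S 7) ≤ φ₁ univ := h.incr _ _ (subset_univ _)
  have h2 : φ₂ (S 7) ≤ φ₂ ∅ := h.decr _ _ (empty_subset _)
  have h3 := h.sum_eq (S 7)
  rw [cut1, mask_S 7 (by norm_num), show byte D1 7 = 18 by decide +kernel] at h3
  rw [h.zero₂] at h2
  push_cast at h3
  linarith

theorem certificate (f : ℕ → ℝ) (hf : f 0 = 0)
    (sub : ∀ a b c d : ℕ, a &&& b = c → a ||| b = d → f c + f d ≤ f a + f b)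
    (sup : ∀ a b c d x : ℕ, a < 128 → b < 128 → a &&& b = c → a ||| b = d →
      byte D0 a + byte D0 b ≤ byte D0 c + byte D0 d + x → f a + f b ≤ f c + f d + x)
    (up : ∀ a : ℕ, f a ≤ f 127)
    (low : ∀ a x : ℕ, a < 128 → byte D0 a = x → (x : ℝ) ≤ f a) : 73 / 4 ≤ f 127 := by
  linear_combination (5 / 2) * hf + (1/2) * low 1 8 (by decide) (by decide +kernel)
    + (1/2) * up 126
    + (2/3) * low 2 8 (by decide) (by decide +kernel)
    + (1/3) * up 125
    + (1/6) * low 4 8 (by decide) (by decide +kernel)
    + (5/6) * up 123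
    + (7/12) * low 8 10 (by decide) (by decide +kernel)
    + (5/12) * up 119
    + (1/2) * low 16 6 (by decide) (by decide +kernel)
    + (1/2) * up 111
    + (7/12) * low 32 5 (by decide) (by decide +kernel)
    + (5/12) * up 95
    + (1/2) * low 64 11 (by decide) (by decide +kernel)
    + (1/2) * up 63
    + (1/6) * sup 1 2 0 3 2 (by decide) (by decide) (by decide) (by decide) (by decide +kernel)
    + (1/6) * sup 81 82 80 83 2 (by decide) (by decide) (by decide) (by decide) (by decide +kernel)
    + (1/6) * sub 125 126 124 127 (by decide) (by decide)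
    + (1/12) * sup 3 6 2 7 2 (by decide) (by decide) (by decide) (by decide) (by decide +kernel)
    + (1/12) * sub 43 46 42 47 (by decide) (by decide)
    + (1/3) * sub 123 126 122 127 (by decide) (by decide)
    + (1/6) * sup 49 56 48 57 4 (by decide) (by decide) (by decide) (by decide) (by decide +kernel)
    + (1/12) * sub 71 78 70 79 (by decide) (by decide)
    + (1/12) * sup 1 16 0 17 2 (by decide) (by decide) (by decide) (by decide) (by decide +kernel)
    + (1/12) * sup 9 24 8 25 2 (by decide) (by decide) (by decide) (by decide) (by decide +kernel)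
    + (1/12) * sup 11 26 10 27 2 (by decide) (by decide) (by decide) (by decide) (by decide +kernel)
    + (1/12) * sub 103 118 102 119 (by decide) (by decide)
    + (1/6) * sub 111 126 110 127 (by decide) (by decide)
    + (1/6) * sup 9 40 8 41 2 (by decide) (by decide) (by decide) (by decide) (by decide +kernel)
    + (1/12) * sub 87 118 86 119 (by decide) (by decide)
    + (1/4) * sup 1 64 0 65 4 (by decide) (by decide) (by decide) (by decide) (by decide +kernel)
    + (1/6) * sub 59 122 58 123 (by decide) (by decide)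
    + (1/12) * sub 63 126 62 127 (by decide) (by decide)
    + (1/12) * sup 2 4 0 6 2 (by decide) (by decide) (by decide) (by decide) (by decide +kernel)
    + (1/12) * sup 18 20 16 22 2 (by decide) (by decide) (by decide) (by decide) (by decide +kernel)
    + (1/12) * sub 59 61 57 63 (by decide) (by decide)
    + (1/6) * sub 122 124 120 126 (by decide) (by decide)
    + (1/12) * sub 123 125 121 127 (by decide) (by decide)
    + (1/4) * sup 50 56 48 58 4 (by decide) (by decide) (by decide) (by decide) (by decide +kernel)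
    + (1/3) * sup 2 16 0 18 2 (by decide) (by decide) (by decide) (by decide) (by decide +kernel)
    + (1/6) * sub 111 125 109 127 (by decide) (by decide)
    + (1/4) * sup 10 40 8 42 2 (by decide) (by decide) (by decide) (by decide) (by decide +kernel)
    + (1/4) * sup 2 64 0 66 4 (by decide) (by decide) (by decide) (by decide) (by decide +kernel)
    + (1/12) * sub 27 89 25 91 (by decide) (by decide)
    + (1/12) * sup 35 97 33 99 4 (by decide) (by decide) (by decide) (by decide) (by decide +kernel)
    + (1/12) * sub 63 125 61 127 (by decide) (by decide)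
    + (1/4) * sub 119 123 115 127 (by decide) (by decide)
    + (1/12) * sup 4 16 0 20 2 (by decide) (by decide) (by decide) (by decide) (by decide +kernel)
    + (1/6) * sub 101 113 97 117 (by decide) (by decide)
    + (1/6) * sub 102 114 98 118 (by decide) (by decide)
    + (1/12) * sub 111 123 107 127 (by decide) (by decide)
    + (1/4) * sub 87 115 83 119 (by decide) (by decide)
    + (1/12) * sup 6 66 2 70 4 (by decide) (by decide) (by decide) (by decide) (by decide +kernel)
    + (5/12) * sub 63 123 59 127 (by decide) (by decide)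
    + (2/3) * sup 8 16 0 24 0 (by decide) (by decide) (by decide) (by decide) (by decide +kernel)
    + (1/4) * sup 10 18 2 26 0 (by decide) (by decide) (by decide) (by decide) (by decide +kernel)
    + (1/12) * sub 41 49 33 57 (by decide) (by decide)
    + (1/4) * sub 42 50 34 58 (by decide) (by decide)
    + (1/12) * sup 46 54 38 62 0 (by decide) (by decide) (by decide) (by decide) (by decide +kernel)
    + (1/12) * sub 47 55 39 63 (by decide) (by decide)
    + (1/6) * sub 74 82 66 90 (by decide) (by decide)
    + (1/12) * sub 75 83 67 91 (by decide) (by decide)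
    + (1/12) * sub 78 86 70 94 (by decide) (by decide)
    + (1/6) * sub 79 87 71 95 (by decide) (by decide)
    + (1/6) * sup 106 114 98 122 0 (by decide) (by decide) (by decide) (by decide) (by decide +kernel)
    + (1/6) * sub 109 117 101 125 (by decide) (by decide)
    + (5/12) * sup 8 32 0 40 0 (by decide) (by decide) (by decide) (by decide) (by decide +kernel)
    + (5/12) * sub 10 34 2 42 (by decide) (by decide)
    + (7/12) * sup 24 48 16 56 0 (by decide) (by decide) (by decide) (by decide) (by decide +kernel)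
    + (1/12) * sub 30 54 22 62 (by decide) (by decide)
    + (1/12) * sup 31 55 23 63 0 (by decide) (by decide) (by decide) (by decide) (by decide +kernel)
    + (1/4) * sub 73 97 65 105 (by decide) (by decide)
    + (1/6) * sup 74 98 66 106 0 (by decide) (by decide) (by decide) (by decide) (by decide +kernel)
    + (1/6) * sup 78 102 70 110 0 (by decide) (by decide) (by decide) (by decide) (by decide +kernel)
    + (1/12) * sup 89 113 81 121 0 (by decide) (by decide) (by decide) (by decide) (by decide +kernel)
    + (7/12) * sub 95 119 87 127 (by decide) (by decide)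
    + (1/6) * sup 24 80 16 88 8 (by decide) (by decide) (by decide) (by decide) (by decide +kernel)
    + (1/12) * sub 31 87 23 95 (by decide) (by decide)
    + (1/6) * sup 16 32 0 48 4 (by decide) (by decide) (by decide) (by decide) (by decide +kernel)
    + (1/12) * sub 95 111 79 127 (by decide) (by decide)
    + (1/6) * sup 34 66 2 98 0 (by decide) (by decide) (by decide) (by decide) (by decide +kernel)
    + (1/12) * sub 35 67 3 99 (by decide) (by decide)
    + (1/12) * sup 38 70 6 102 0 (by decide) (by decide) (by decide) (by decide) (by decide +kernel)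
    + (1/12) * sub 39 71 7 103 (by decide) (by decide)
    + (1/4) * sup 41 73 9 105 0 (by decide) (by decide) (by decide) (by decide) (by decide +kernel)
    + (1/12) * sup 43 75 11 107 0 (by decide) (by decide) (by decide) (by decide) (by decide +kernel)
    + (1/12) * sub 49 81 17 113 (by decide) (by decide)
    + (1/6) * sup 56 88 24 120 0 (by decide) (by decide) (by decide) (by decide) (by decide +kernel)
    + (1/6) * sub 58 90 26 122 (by decide) (by decide)
    + (1/6) * sub 59 91 27 123 (by decide) (by decide)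
    + (1/12) * sub 62 94 30 126 (by decide) (by decide)

theorem lower0 {r : ℝ} (hr : r ∈ values (cutFn G w')) : 73 / 4 ≤ r := by
  obtain ⟨φ₁, φ₂, h, rfl⟩ := hr
  have hz : ∀ m < 128, cutFn G w' (S m) = (byte D0 m : ℝ) := by
    intro m hm
    rw [cut0, mask_S m hm]
  have hle : ∀ a b : ℕ, a < 128 → b < 128 → a &&& b < 128 ∧ a ||| b < 128 := by
    intro a b ha hb
    exact ⟨lt_of_le_of_lt Nat.and_le_left ha, Nat.or_lt_two_pow (n := 7) ha hb⟩
  have key := certificate (fun m => φ₁ (S m)) (by simp only [S_zero]; exact h.zero₁)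
    (by
      intro a b c d hc hd
      simp only [← hc, ← hd, S_and, S_or]
      exact h.submod₁ _ _)
    (by
      intro a b c d x ha hb hc hd hx
      have h2 := h.submod₂ (S a) (S b)
      rw [← S_and, ← S_or, hc, hd] at h2
      have ea := h.sum_eq (S a)
      have eb := h.sum_eq (S b)
      have ec := h.sum_eq (S c)
      have ed := h.sum_eq (S d)
      have hcd := hle a b ha hb
      rw [hc, hd] at hcd
      rw [hz a ha] at ea
      rw [hz b hb] at eb
      rw [hz c hcd.1] at ec
      rw [hz d hcd.2] at ed
      have hx' : (byte D0 a : ℝ) + byte D0 b ≤ byte D0 c + byte D0 d + x := by exact_mod_cast hx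
      show φ₁ (S a) + φ₁ (S b) ≤ φ₁ (S c) + φ₁ (S d) + x
      linarith)
    (by
      intro a
      show φ₁ (S a) ≤ φ₁ (S 127)
      rw [S_univ]
      exact h.incr _ _ (subset_univ _))
    (by
      intro a x ha hx
      have h2 : φ₂ (S a) ≤ φ₂ ∅ := h.decr _ _ (empty_subset _)
      have ea := h.sum_eq (S a)
      rw [hz a ha, hx] at ea
      rw [h.zero₂] at h2
      show (x : ℝ) ≤ φ₁ (S a)
      linarith)
  rw [← S_univ]
  exact key

/-- The weights `w` and `w'` are nonnegative, `w' ≤ w`, and they differ on one edge only. -/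
theorem w_props : (∀ e, 0 ≤ w' e) ∧ (∀ e, w' e ≤ w e) ∧ (∀ e, e ≠ s(5, 6) → w' e = w e) ∧
    w s(5, 6) = 1 ∧ w' s(5, 6) = 0 ∧ (∀ e, w e ≠ 0 ↔ e ∈ G.edgeSet) := by
  refine ⟨?_, ?_, ?_, ?_, ?_, ?_⟩
  · intro e
    induction e using Sym2.ind with
    | _ a b => exact Nat.cast_nonneg _
  · intro e
    induction e using Sym2.ind with
    | _ a b =>
      have h : wn' a b ≤ wn a b := by
        unfold wn'
        split_ifs <;> simp
      show ((wn' a b : ℕ) : ℝ) ≤ ((wn a b : ℕ) : ℝ)
      exact_mod_cast h
  · intro e
    induction e using Sym2.ind with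
    | _ a b =>
      intro h
      have h1 : ¬ ((a = 5 ∧ b = 6) ∨ (a = 6 ∧ b = 5)) := by
        rintro (⟨rfl, rfl⟩ | ⟨rfl, rfl⟩)
        · exact h rfl
        · exact h Sym2.eq_swap
      show ((wn' a b : ℕ) : ℝ) = ((wn a b : ℕ) : ℝ)
      unfold wn'
      rw [if_neg h1]
  · show ((wn 5 6 : ℕ) : ℝ) = 1
    rw [show wn 5 6 = 1 by decide +kernel]
    norm_num
  · show ((wn' 5 6 : ℕ) : ℝ) = 0
    rw [show wn' 5 6 = 0 by decide +kernel]
    norm_num
  · intro e
    induction e using Sym2.ind with
    | _ a b =>
      rw [SimpleGraph.mem_edgeSet]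
      show ((wn a b : ℕ) : ℝ) ≠ 0 ↔ wn a b ≠ 0
      exact Nat.cast_ne_zero

/-- **The value `‖d_(G,w)‖₊` is not monotone in the weights.**  There are a graph `G` on seven
vertices and nonnegative weights `w' ≤ w` of its edges, which differ on one edge only
(weights `0` and `1`), such that the least values `φ₁(V)` of a monotonic sum-decomposition of
`d_(G,w')` and of `d_(G,w)` are `73/4` and `18`. -/
theorem result : ∃ (G : SimpleGraph (Fin 7)) (w w' : Sym2 (Fin 7) → ℝ),
    (∀ e, 0 ≤ w' e) ∧ (∀ e, w' e ≤ w e) ∧
    (∃ e₀ ∈ G.edgeSet, w e₀ = 1 ∧ w' e₀ = 0 ∧ ∀ e, e ≠ e₀ → w' e = w e) ∧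
    IsLeast (values (cutFn G w)) 18 ∧ IsLeast (values (cutFn G w')) (73 / 4) ∧
    plusNorm (cutFn G w) < plusNorm (cutFn G w') := by
  obtain ⟨h1, h2, h3, h4, h5, h6⟩ := w_props
  have e1 : IsLeast (values (cutFn G w)) 18 := ⟨mem1, fun r hr => lower1 hr⟩
  have e0 : IsLeast (values (cutFn G w')) (73 / 4) := ⟨mem0, fun r hr => lower0 hr⟩
  refine ⟨G, w, w', h1, h2, ⟨s(5, 6), (h6 _).1 (by rw [h4]; norm_num), h4, h5, h3⟩, e1, e0, ?_⟩
  unfold plusNorm
  rw [e1.csInf_eq, e0.csInf_eq]
  norm_num

end Pool.Agent.Results.MP_37da45_co.EdgeAddition
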